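import Mathlib
import Pool.Agent.GL.Blow2
import Pool.Agent.GL.Comp
import Pool.Agent.GL.Base

/-!
# The Gyárfás–Lehel conjecture fails for infinitely many `r`
-/

set_option autoImplicit false

namespace Pool.Agent.Results.MP_f34ea0_co.InfinitelyMany

open Finset

/-- `H` is an `r`-partite hypergraph with sides `V_i = part ⁻¹ {i}`: every edge has exactly one
vertex in each side. -/
def IsPartite {r : ℕ} {V : Type} [DecidableEq V] (part : V → Fin r)
    (H : Finset (Finset V)) : Prop :=
  ∀ e ∈ H, ∀ i : Fin r, (e.filter (fun v => part v = i)).card = 1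

/-- `(A, B)` is cross-intersecting. -/
def CrossIntersecting {V : Type} [DecidableEq V] (A B : Finset (Finset V)) : Prop :=
  ∀ e ∈ A, ∀ f ∈ B, (e ∩ f).Nonempty

/-- `T` is a cover of the hypergraph `H`. -/
def IsCover {V : Type} [DecidableEq V] (T : Finset V) (H : Finset (Finset V)) : Prop :=
  ∀ e ∈ H, (T ∩ e).Nonempty

/-- the covering number of `H` is `t`. -/
def CoveringNumberIs {V : Type} [DecidableEq V] (H : Finset (Finset V)) (t : ℕ) : Prop :=
  IsLeast {n : ℕ | ∃ T : Finset V, IsCover T H ∧ T.card = n} t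

/-- There are arbitrarily large `r` for which some non-empty cross-intersecting `r`-partite
hypergraphs `A`, `B` with the same sides have covering number `τ(A ∪ B) = 2r - 1`. -/
theorem result : ∀ R : ℕ, ∃ r : ℕ, R ≤ r ∧ 2 ≤ r ∧
    ∃ (V : Type) (_ : Fintype V) (_ : DecidableEq V) (part : V → Fin r)
      (A B : Finset (Finset V)),
      IsPartite part A ∧ IsPartite part B ∧ A.Nonempty ∧ B.Nonempty ∧
      CrossIntersecting A B ∧ CoveringNumberIs (A ∪ B) (2 * r - 1) := by
  intro R
  have hg := Pool.Agent.GL.Good.pow Pool.Agent.GL.good_base (by norm_num) (by norm_num) 25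
  obtain ⟨r, hR, hr2, V, hV, hD, part, A, B, hA, hB, hAn, hBn, hAB, hT⟩ :=
    Pool.Agent.GL.blowup hg (by norm_num) (by norm_num) (by norm_num) R
  refine ⟨r, hR, hr2, V, hV, hD, part, A, B, hA, hB, hAn, hBn, hAB, ?_, ?_⟩
  · obtain ⟨e, he⟩ := hAn
    obtain ⟨f, hf⟩ := hBn
    have hcard : ∀ g : Finset V, (∀ i : Fin r, (g.filter (fun v => part v = i)).card = 1) →
        g.card = r := by
      intro g hg
      rw [card_eq_sum_card_fiberwise (f := part) (t := univ) (fun _ _ => mem_coe.2 (mem_univ _))]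
      rw [sum_congr rfl (fun i _ => hg i)]
      simp
    have hcov : IsCover (e ∪ f) (A ∪ B) := by
      intro g hg
      rcases mem_union.1 hg with hg | hg
      · obtain ⟨v, hv⟩ := hAB g hg f hf
        rw [mem_inter] at hv
        exact ⟨v, mem_inter.2 ⟨mem_union_right _ hv.2, hv.1⟩⟩
      · obtain ⟨v, hv⟩ := hAB e he g hg
        rw [mem_inter] at hv
        exact ⟨v, mem_inter.2 ⟨mem_union_left _ hv.1, hv.2⟩⟩
    refine ⟨e ∪ f, hcov, ?_⟩
    have h1 := card_union_add_card_inter e f
    have h2 := hcard e (hA e he)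
    have h3 := hcard f (hB f hf)
    have h4 : 0 < (e ∩ f).card := card_pos.2 (hAB e he f hf)
    have h5 := hT (e ∪ f) hcov
    omega
  · rintro n ⟨T, hTc, rfl⟩
    exact hT T hTc

end Pool.Agent.Results.MP_f34ea0_co.InfinitelyMany
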